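import Pool.Agent.H3.SZ.Tow

/-!
# [DIM* G2] SZ2: windows over a base window, sizes and crossings (any number of critical points)

`TT`: a window `T = τ '' ball 0 1` over the base window `χ0 '' ball 0 1` at `c` (finite stage): `f^[K]` maps `T` to it, `f^[K] (τ v) = χ0 (BB b1 α u v)`; `T` contains a
point `τ b = χ0 a` in both cores and a point not in `χ0 '' ball 0 r`. `gr2`: distortion. `tt_up`, `tt_lo`, `tt_zb`: the size of `T` is comparable to the size of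
the base window, constants depending on `u` only (upper bound: otherwise `T` contains a neighbourhood of the base window and `noattr`). `cross2`: as `cross` (H3/SZ/Bp)
with an arbitrary common point. `tt_cr`: the boundaries of `T^r` and `χ0 '' ball 0 r` meet.
-/

set_option autoImplicit false

open Filter Topology Metric Set

namespace Pool.Agent.H3.SZ2

open Pool.Agent.H56.UD (PS dm dm_add' dm_zero)
open Pool.Agent.H64.XL
open Pool.Agent.H66.GEO (Bl BB)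
open Pool.Agent.H3.SZ (bb_ex bb_diff bb_open bb_pre bb_lt noattr wt_sz)

private theorem pre_sub {S B : Set ℂ} (hS : IsPreconnected S) (hB : IsOpen B) (hd : Disjoint S (frontier B))
    (hne : (S ∩ B).Nonempty) : S ⊆ B := by
  have ho : IsOpen (closure B)ᶜ := isClosed_closure.isOpen_compl
  have hdj : Disjoint B (closure B)ᶜ := disjoint_compl_right.mono_left subset_closure
  refine hS.subset_left_of_subset_union hB ho hdj ?_ hne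
  intro x hx
  by_cases h1 : x ∈ closure B
  · refine Or.inl ?_
    by_contra h2
    refine (Set.disjoint_left.1 hd) hx ?_
    rw [hB.frontier_eq]
    exact ⟨h1, h2⟩
  · exact Or.inr h1

/-- crossing curves -/
theorem cross2 {g g0 b : ℂ → ℂ} {r ρ : ℝ} (hg : DifferentiableOn ℂ g (ball 0 1)) (hi : InjOn g (ball 0 1))
    (hg0 : DifferentiableOn ℂ g0 (ball 0 1)) (hi0 : InjOn g0 (ball 0 1)) (hb : DifferentiableOn ℂ b (ball 0 1))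
    (hr0 : 0 < r) (hr1 : r < 1) (hρ1 : ρ < 1) (hρ : ∀ x : ℂ, ‖x‖ < 1 → ‖b x‖ ≤ r → ‖x‖ ≤ ρ)
    {a0 b0 : ℂ} (ha0 : ‖a0‖ < r) (hb1 : ‖b0‖ < 1) (hb0 : ‖b b0‖ < r) (h00 : g0 a0 = g b0) (hn1 : ¬ g0 '' ball 0 r ⊆ g '' {x | ‖x‖ < 1 ∧ ‖b x‖ < r})
    (hn2 : ¬ g '' {x | ‖x‖ < 1 ∧ ‖b x‖ < r} ⊆ g0 '' ball 0 r) (hT : IsPreconnected {x : ℂ | ‖x‖ < 1 ∧ ‖b x‖ < r}) :
    ∃ x y : ℂ, ‖x‖ = r ∧ ‖y‖ < 1 ∧ ‖b y‖ = r ∧ g y = g0 x := by
  have hTo : IsOpen {x : ℂ | ‖x‖ < 1 ∧ ‖b x‖ < r} := by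
    have h1 := hb.continuousOn.norm.isOpen_inter_preimage isOpen_ball (isOpen_Iio (a := r))
    convert h1 using 1
    ext x
    exact ⟨fun h => ⟨mem_ball_zero_iff.2 h.1, h.2⟩, fun h => ⟨mem_ball_zero_iff.1 h.1, h.2⟩⟩
  have hTs : {x : ℂ | ‖x‖ < 1 ∧ ‖b x‖ < r} ⊆ ball 0 1 := fun x hx => mem_ball_zero_iff.2 hx.1
  have hrs : ball (0 : ℂ) r ⊆ ball 0 1 := ball_subset_ball hr1.le
  have hBo : IsOpen (g '' {x : ℂ | ‖x‖ < 1 ∧ ‖b x‖ < r}) := Pool.Agent.H39.HO.inj_open isOpen_ball hg hi hTs hTo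
  have hAo : IsOpen (g0 '' ball 0 r) := Pool.Agent.H39.HO.inj_open isOpen_ball hg0 hi0 hrs isOpen_ball
  have hcl0 : closedBall (0 : ℂ) r ⊆ ball 0 1 := closedBall_subset_ball hr1
  have hAc : IsCompact (g0 '' closedBall 0 r) :=
    (isCompact_closedBall 0 r).image_of_continuousOn (hg0.continuousOn.mono hcl0)
  have hAf : frontier (g0 '' ball 0 r) ⊆ g0 '' sphere 0 r := by
    intro p hp
    rw [hAo.frontier_eq] at hp
    have h1 : p ∈ g0 '' closedBall 0 r := by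
      have h2 : closure (g0 '' ball 0 r) ⊆ g0 '' closedBall 0 r :=
        closure_minimal (image_mono ball_subset_closedBall) hAc.isClosed
      exact h2 hp.1
    obtain ⟨x, hx, rfl⟩ := h1
    refine ⟨x, ?_, rfl⟩
    rw [mem_sphere_zero_iff_norm]
    refine le_antisymm (mem_closedBall_zero_iff.1 hx) ?_
    by_contra h3
    exact hp.2 ⟨x, mem_ball_zero_iff.2 (not_le.1 h3), rfl⟩
  -- the frontier of B
  have hρs : closedBall (0 : ℂ) ρ ⊆ ball 0 1 := closedBall_subset_ball hρ1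
  have hLc : IsCompact {x : ℂ | ‖x‖ ≤ ρ ∧ ‖b x‖ ≤ r} := by
    have h1 : {x : ℂ | ‖x‖ ≤ ρ ∧ ‖b x‖ ≤ r} = closedBall 0 ρ ∩ (fun x => ‖b x‖) ⁻¹' (Iic r) := by
      ext x
      exact ⟨fun h => ⟨mem_closedBall_zero_iff.2 h.1, h.2⟩, fun h => ⟨mem_closedBall_zero_iff.1 h.1, h.2⟩⟩
    rw [h1]
    have h2 : IsClosed (closedBall (0 : ℂ) ρ ∩ (fun x => ‖b x‖) ⁻¹' (Iic r)) :=
      (hb.continuousOn.norm.mono hρs).preimage_isClosed_of_isClosed isClosed_closedBall isClosed_Iic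
    exact (isCompact_closedBall (0 : ℂ) ρ).of_isClosed_subset h2 inter_subset_left
  have hBc : IsCompact (g '' {x : ℂ | ‖x‖ ≤ ρ ∧ ‖b x‖ ≤ r}) :=
    hLc.image_of_continuousOn (hg.continuousOn.mono fun x hx => hρs (mem_closedBall_zero_iff.2 hx.1))
  have hBcl : closure (g '' {x : ℂ | ‖x‖ < 1 ∧ ‖b x‖ < r}) ⊆ g '' {x : ℂ | ‖x‖ ≤ ρ ∧ ‖b x‖ ≤ r} :=
    closure_minimal (image_mono fun x hx => ⟨hρ x hx.1 hx.2.le, hx.2.le⟩) hBc.isClosed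
  have hBf : ∀ p ∈ frontier (g '' {x : ℂ | ‖x‖ < 1 ∧ ‖b x‖ < r}), ∃ y : ℂ, ‖y‖ < 1 ∧ ‖b y‖ = r ∧ g y = p := by
    intro p hp
    rw [hBo.frontier_eq] at hp
    obtain ⟨y, hy, rfl⟩ := hBcl hp.1
    have hy1 : ‖y‖ < 1 := hy.1.trans_lt hρ1
    refine ⟨y, hy1, le_antisymm hy.2 ?_, rfl⟩
    by_contra h3
    exact hp.2 ⟨y, ⟨hy1, not_le.1 h3⟩, rfl⟩
  by_cases hS : Disjoint (g0 '' sphere 0 r) (frontier (g '' {x : ℂ | ‖x‖ < 1 ∧ ‖b x‖ < r}))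
  · exfalso
    have hSp : IsPreconnected (g0 '' sphere 0 r) := by
      refine IsPreconnected.image ?_ g0 (hg0.continuousOn.mono (sphere_subset_closedBall.trans hcl0))
      exact isPreconnected_sphere (by
        rw [Complex.rank_real_complex]
        norm_num) 0 r
    by_cases hne : (g0 '' sphere 0 r ∩ g '' {x : ℂ | ‖x‖ < 1 ∧ ‖b x‖ < r}).Nonempty
    · have hSB := pre_sub hSp hBo hS hne
      refine hn1 ?_
      have hAb : Bornology.IsBounded (g0 '' ball 0 r) := hAc.isBounded.subset (image_mono ball_subset_closedBall)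
      have hfull : Pool.Agent.H56.TH.Full (g '' ball 0 1) :=
        Pool.Agent.H81.RW.img_full hg hi subset_rfl (Pool.Agent.H56.TH.full_ball 0 1)
      have hAW : g0 '' ball 0 r ⊆ g '' ball 0 1 :=
        hfull _ hAo hAb ((hAf.trans hSB).trans (image_mono hTs))
      have hinv := Pool.Agent.H39.HO.inj_hol isOpen_ball hg hi
      have hinvm : ∀ p ∈ g '' ball 0 1, Function.invFunOn g (ball 0 1) p ∈ ball (0 : ℂ) 1 ∧
          g (Function.invFunOn g (ball 0 1) p) = p := fun p hp =>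
        ⟨Function.invFunOn_mem hp, Function.invFunOn_eq hp⟩
      have hgo : IsOpen (g '' ball 0 1) := Pool.Agent.H39.HO.inj_open isOpen_ball hg hi subset_rfl isOpen_ball
      have hh : DifferentiableOn ℂ (fun p => b (Function.invFunOn g (ball 0 1) p)) (g '' ball 0 1) :=
        hb.comp hinv fun p hp => (hinvm p hp).1
      have hSc : IsCompact (g0 '' sphere 0 r) :=
        (isCompact_sphere 0 r).image_of_continuousOn (hg0.continuousOn.mono (sphere_subset_closedBall.trans hcl0))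
      have hSne : (g0 '' sphere (0 : ℂ) r).Nonempty := by
        refine Set.Nonempty.image _ ⟨(r : ℂ), ?_⟩
        rw [mem_sphere_zero_iff_norm, Complex.norm_real, Real.norm_of_nonneg hr0.le]
      have hSW : g0 '' sphere 0 r ⊆ g '' ball 0 1 := hSB.trans (image_mono hTs)
      obtain ⟨q, hq, hmax⟩ := hSc.exists_isMaxOn hSne (hh.continuousOn.norm.mono hSW)
      have hval : ∀ p ∈ g '' {x : ℂ | ‖x‖ < 1 ∧ ‖b x‖ < r}, ‖b (Function.invFunOn g (ball 0 1) p)‖ < r := by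
        rintro p ⟨x, hx, rfl⟩
        have h1 : Function.invFunOn g (ball 0 1) (g x) = x := by
          have h2 := hinvm (g x) (mem_image_of_mem g (hTs hx))
          exact hi h2.1 (hTs hx) h2.2
        rw [h1]
        exact hx.2
      have hclA : closure (g0 '' ball 0 r) ⊆ g '' ball 0 1 := by
        rw [closure_eq_self_union_frontier]
        exact union_subset hAW (hAf.trans hSW)
      have hdc : DiffContOnCl ℂ (fun p => b (Function.invFunOn g (ball 0 1) p)) (g0 '' ball 0 r) :=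
        ⟨hh.mono hAW, hh.continuousOn.mono hclA⟩
      intro p hp
      have h4 : ‖b (Function.invFunOn g (ball 0 1) p)‖ ≤ ‖b (Function.invFunOn g (ball 0 1) q)‖ :=
        Complex.norm_le_of_forall_mem_frontier_norm_le hAb hdc (fun z hz => hmax (hAf hz)) (subset_closure hp)
      have h5 := hinvm p (hAW hp)
      exact ⟨_, ⟨mem_ball_zero_iff.1 h5.1, h4.trans_lt (hval q (hSB hq))⟩, h5.2⟩
    · refine hn2 ?_
      have hBp : IsPreconnected (g '' {x : ℂ | ‖x‖ < 1 ∧ ‖b x‖ < r}) := hT.image g (hg.continuousOn.mono hTs)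
      refine pre_sub hBp hAo ?_ ⟨g b0, ⟨b0, ⟨hb1, hb0⟩, rfl⟩, ⟨a0, mem_ball_zero_iff.2 ha0, h00⟩⟩
      rw [Set.disjoint_left]
      intro p hp hpf
      exact hne ⟨p, hAf hpf, hp⟩
  · rw [Set.not_disjoint_iff] at hS
    obtain ⟨p, ⟨x, hx, rfl⟩, hp⟩ := hS
    obtain ⟨y, hy1, hy2, hy3⟩ := hBf _ hp
    exact ⟨x, y, mem_sphere_zero_iff_norm.1 hx, hy1, hy2, hy3⟩


/-- distortion of univalent functions -/
theorem gr2 {ρ : ℝ} (hρ : ρ < 1) : ∃ K : ℝ, 1 ≤ K ∧ ∀ g : ℂ → ℂ, DifferentiableOn ℂ g (ball 0 1) → InjOn g (ball 0 1) →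
    ∀ x y : ℂ, ‖x‖ ≤ ρ → ‖y‖ ≤ ρ → ‖deriv g x‖ ≤ K * ‖deriv g y‖ ∧ ‖g x - g y‖ ≤ K * ‖deriv g y‖ := by
  obtain ⟨N, hN⟩ := exists_nat_ge (4 / (1 - ρ))
  have h1 : 0 < 1 - ρ := by linarith
  have hK1 : 1 ≤ Pool.Agent.H80.AJ.KK ^ N := one_le_pow₀ Pool.Agent.H80.AJ.one_le_KK
  refine ⟨2 * Pool.Agent.H80.AJ.KK ^ N, by linarith, fun g hg hi x y hx hy => ?_⟩
  have hK : 0 < Pool.Agent.H80.AJ.KK ^ N := pow_pos Pool.Agent.H80.AJ.KK_pos N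
  have hball : ∀ v : ℂ, ‖v‖ ≤ ρ → ball v (1 - ρ) ⊆ ball 0 1 := by
    intro v hv
    refine ball_subset_ball' ?_
    rw [dist_zero_right]
    linarith
  have hder : ∀ v : ℂ, ‖v‖ ≤ ρ → ‖deriv g v‖ ≤ Pool.Agent.H80.AJ.KK ^ N * ‖deriv g y‖ := by
    intro v hv
    refine Pool.Agent.H65.UB.chain h1 N ?_ fun u hu => ?_
    · have h3 : 4 ≤ N * (1 - ρ) := by
        rwa [div_le_iff₀ h1] at hN
      have h4 : N * ((1 - ρ) / 2) = (N * (1 - ρ)) / 2 := by ring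
      rw [h4]
      have h5 := norm_sub_le v y
      linarith
    · have h5 : ‖u‖ ≤ ρ := by
        have h6 := (convex_closedBall (0 : ℂ) ρ).segment_subset (mem_closedBall_zero_iff.2 hv)
          (mem_closedBall_zero_iff.2 hy) hu
        exact mem_closedBall_zero_iff.1 h6
      exact ⟨hg.mono (hball u h5), hi.mono (hball u h5)⟩
  have h7 : 0 ≤ Pool.Agent.H80.AJ.KK ^ N * ‖deriv g y‖ := by positivity
  refine ⟨(hder x hx).trans (by linarith), ?_⟩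
  have h2 := Convex.norm_image_sub_le_of_norm_deriv_le (𝕜 := ℂ) (s := closedBall (0 : ℂ) ρ)
    (C := Pool.Agent.H80.AJ.KK ^ N * ‖deriv g y‖) (f := g) (x := y) (y := x)
    (fun v hv => hg.differentiableAt (isOpen_ball.mem_nhds (by
      have := mem_closedBall_zero_iff.1 hv
      exact mem_ball_zero_iff.2 (by linarith))))
    (fun v hv => hder v (mem_closedBall_zero_iff.1 hv)) (convex_closedBall _ _)
    (mem_closedBall_zero_iff.2 hy) (mem_closedBall_zero_iff.2 hx)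
  refine h2.trans ?_
  have h8 : ‖x - y‖ ≤ 2 := by
    have h5 := norm_sub_le x y
    linarith
  calc Pool.Agent.H80.AJ.KK ^ N * ‖deriv g y‖ * ‖x - y‖ ≤ Pool.Agent.H80.AJ.KK ^ N * ‖deriv g y‖ * 2 :=
        mul_le_mul_of_nonneg_left h8 h7
    _ = _ := by ring

/-- a window over a base window -/
structure TT (f : ℂ → ℂ) (U P : Set ℂ) (θ r : ℝ) (χ0 : ℂ → ℂ) (α : ℕ → ℂ) (u K : ℕ) (τ : ℂ → ℂ) : Prop where
  d : DifferentiableOn ℂ τ (ball 0 1)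
  i : InjOn τ (ball 0 1)
  al : ∀ m < u, ‖α m‖ < 1
  cv : ∀ m < u, ‖BB b1 α m (α m)‖ ≤ θ
  K1 : 1 ≤ K
  hU : ∀ v ∈ ball (0 : ℂ) 1, ∀ j < K, f^[j] (τ v) ∈ U
  st : ∀ v ∈ ball (0 : ℂ) 1, f^[K] (τ v) = χ0 (BB b1 α u v)
  of : ∀ v ∈ ball (0 : ℂ) 1, θ < ‖BB b1 α u v‖ → τ v ∉ P
  y : ∃ a b : ℂ, ‖a‖ ≤ θ ∧ ‖b‖ < 1 ∧ ‖BB b1 α u b‖ ≤ θ ∧ τ b = χ0 a
  z : ∃ x : ℂ, ‖x‖ < 1 ∧ ‖BB b1 α u x‖ < r ∧ τ x ∉ χ0 '' ball 0 r

variable {f : ℂ → ℂ} {U J P Cr : Set ℂ} {δ : ℝ} {η : ℂ → ℂ → ℂ} {ρ : ℝ} {θ r M : ℝ}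

/-- upper bound for the sizes -/
theorem tt_up (h : PS f U J P Cr δ η ρ) (hM : 1 ≤ M) (hθ1 : θ < 1) (u : ℕ) : ∃ C ε0 : ℝ, 1 ≤ C ∧ 0 < ε0 ∧
    ∀ {c : ℂ} {r ε : ℝ} {χ0 τ : ℂ → ℂ} {α : ℕ → ℂ} {K : ℕ}, TT f U P θ r χ0 α u K τ → c ∈ J → Wt f U J P δ c θ M ε χ0 → ε ≤ ε0 →
    ‖deriv τ 0‖ ≤ C * ‖deriv χ0 0‖ := by
  obtain ⟨d, hd, hno⟩ := noattr h
  obtain ⟨σ, hσ0, hσ1, hσ⟩ := bb_ex hθ1 u hθ1
  obtain ⟨K0, hK1, hK⟩ := gr2 hσ1
  have hK0 : 0 < K0 := by linarith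
  have hM0 : 0 < M := by linarith
  have hσ2 : 0 < 1 - σ := by linarith
  refine ⟨48 * K0 * M / (1 - σ), d / (64 * M), ?_, by positivity, fun {c r ε χ0 τ α K} hT hc hW hε => ?_⟩
  · rw [one_le_div hσ2]
    nlinarith [mul_le_mul hK1 hM zero_le_one hK0.le]
  by_contra hcon
  rw [not_le] at hcon
  obtain ⟨a, b, ha, hb1, hb, hab⟩ := hT.y
  have h0 : 0 < ‖deriv χ0 0‖ := Pool.Agent.H80.AJ.deriv_ne one_pos hW.d hW.i (mem_closedBall_self (by norm_num))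
  have hbσ : ‖b‖ ≤ σ := hσ α hT.al hT.cv b hb1 hb
  have hbs : ball b (1 - σ) ⊆ ball 0 1 := by
    refine ball_subset_ball' ?_
    rw [dist_zero_right]
    linarith
  have h1 := Pool.Agent.H80.AJ.univ_cover hσ2 (hT.d.mono hbs) (hT.i.mono hbs)
  have h2 := (hK τ hT.d hT.i 0 b (by simpa using hσ0.le) hbσ).1
  have h3 : 3 * (M * ‖deriv χ0 0‖) < (1 - σ) * ‖deriv τ b‖ / 16 := by
    have h4 : 48 * K0 * M / (1 - σ) * ‖deriv χ0 0‖ < K0 * ‖deriv τ b‖ := hcon.trans_le h2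
    rw [div_mul_eq_mul_div, div_lt_iff₀ hσ2] at h4
    have h5 : K0 * (48 * (M * ‖deriv χ0 0‖)) < K0 * ((1 - σ) * ‖deriv τ b‖) := by linarith
    have h6 := lt_of_mul_lt_mul_left h5 hK0.le
    linarith
  have haM : ‖χ0 a - c‖ ≤ M * ‖deriv χ0 0‖ := hW.bd a (mem_ball_zero_iff.2 (ha.trans_lt hθ1))
  have hR : 0 < 2 * M * ‖deriv χ0 0‖ := by positivity
  refine hno (ball c (2 * M * ‖deriv χ0 0‖)) K c isOpen_ball (mem_ball_self hR) hc ?_ hT.K1 ?_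
  · refine ball_subset_ball ?_
    have h4 := wt_sz (χ := fun _ => χ0) hW
    have h5 : ε * (64 * M) ≤ d := by
      rwa [le_div_iff₀ (by positivity)] at hε
    have h6 : 2 * M * ‖deriv χ0 0‖ ≤ 2 * M * (16 * ε) := mul_le_mul_of_nonneg_left h4 (by positivity)
    have h7 : 2 * M * (16 * ε) = (ε * (64 * M)) / 2 := by ring
    linarith
  · intro w hw
    have h4 : w ∈ ball (τ b) ((1 - σ) * ‖deriv τ b‖ / 16) := by
      rw [mem_ball, dist_eq_norm] at hw ⊢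
      rw [hab]
      have h5 : w - χ0 a = (w - c) - (χ0 a - c) := by ring
      have h6 := norm_sub_le (w - c) (χ0 a - c)
      rw [← h5] at h6
      linarith
    obtain ⟨v, hv, rfl⟩ := h1 h4
    have hv1 := hbs hv
    rw [hT.st v hv1]
    have h5 : BB b1 α u v ∈ ball (0 : ℂ) 1 := mem_ball_zero_iff.2 (bb_lt hT.al (mem_ball_zero_iff.1 hv1))
    have h6 := hW.bd _ h5
    rw [mem_ball, dist_eq_norm]
    have h7 : 0 < M * ‖deriv χ0 0‖ := by positivity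
    linarith

/-- lower bound for the sizes -/
theorem tt_lo (hθ0 : 0 ≤ θ) (hθr : θ < r) (hr1 : r < 1) (u : ℕ) : ∃ κ : ℝ, 0 < κ ∧
    ∀ {f : ℂ → ℂ} {U P : Set ℂ} {χ0 τ : ℂ → ℂ} {α : ℕ → ℂ} {K : ℕ}, TT f U P θ r χ0 α u K τ → DifferentiableOn ℂ χ0 (ball 0 1) →
    InjOn χ0 (ball 0 1) → κ * ‖deriv χ0 0‖ ≤ ‖deriv τ 0‖ := by
  have hθ1 : θ < 1 := hθr.trans hr1
  obtain ⟨σ, hσ0, hσ1, hσ⟩ := bb_ex hθ1 u hr1
  obtain ⟨K0, hK1, hK⟩ := gr2 (max_lt hσ1 hr1)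
  have hK0 : 0 < K0 := by linarith
  have hrθ : 0 < r - θ := by linarith
  refine ⟨(r - θ) / (16 * K0 ^ 3), by positivity, fun {f U P χ0 τ α K} hT hd hi => ?_⟩
  obtain ⟨a, b, ha, hb1, hb, hab⟩ := hT.y
  obtain ⟨x, hx1, hx, hxn⟩ := hT.z
  have hbσ : ‖b‖ ≤ max σ r := (hσ α hT.al hT.cv b hb1 (hb.trans hθr.le)).trans (le_max_left _ _)
  have hxσ : ‖x‖ ≤ max σ r := (hσ α hT.al hT.cv x hx1 hx.le).trans (le_max_left _ _)
  have h0σ : ‖(0 : ℂ)‖ ≤ max σ r := by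
    rw [norm_zero]
    exact hσ0.le.trans (le_max_left _ _)
  have haσ : ‖a‖ ≤ max σ r := (ha.trans hθr.le).trans (le_max_right _ _)
  have has : ball a (r - θ) ⊆ ball 0 r := by
    refine ball_subset_ball' ?_
    rw [dist_zero_right]
    linarith
  have has1 : ball a (r - θ) ⊆ ball 0 1 := has.trans (ball_subset_ball hr1.le)
  have h1 := Pool.Agent.H80.AJ.univ_cover hrθ (hd.mono has1) (hi.mono has1)
  have h2 : (r - θ) * ‖deriv χ0 a‖ / 16 ≤ ‖τ x - χ0 a‖ := by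
    by_contra h3
    exact hxn ((image_mono has) (h1 (by
      rw [mem_ball, dist_eq_norm]
      exact not_le.1 h3)))
  have h3 := (hK χ0 hd hi 0 a h0σ haσ).1
  have h4 := (hK τ hT.d hT.i x b hxσ hbσ).2
  have h5 := (hK τ hT.d hT.i b 0 hbσ h0σ).1
  rw [hab] at h4
  rw [div_mul_eq_mul_div, div_le_iff₀ (by positivity)]
  have h6 : (r - θ) * ‖deriv χ0 0‖ ≤ (r - θ) * (K0 * ‖deriv χ0 a‖) := mul_le_mul_of_nonneg_left h3 hrθ.le
  have h7 : K0 * ‖deriv τ b‖ ≤ K0 * (K0 * ‖deriv τ 0‖) := mul_le_mul_of_nonneg_left h5 hK0.le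
  have h8 : (r - θ) * ‖deriv χ0 a‖ ≤ 16 * (K0 * (K0 * ‖deriv τ 0‖)) := by linarith
  have h9 : K0 * ((r - θ) * ‖deriv χ0 a‖) ≤ K0 * (16 * (K0 * (K0 * ‖deriv τ 0‖))) := mul_le_mul_of_nonneg_left h8 hK0.le
  nlinarith

/-- bounded position of the points of `T^r` -/
theorem tt_zb (h : PS f U J P Cr δ η ρ) (hM : 1 ≤ M) (hθ0 : 0 ≤ θ) (hθr : θ < r) (hr1 : r < 1) (u : ℕ) : ∃ C ε0 : ℝ, 1 ≤ C ∧ 0 < ε0 ∧
    ∀ {c : ℂ} {ε : ℝ} {χ0 τ : ℂ → ℂ} {α : ℕ → ℂ} {K : ℕ}, TT f U P θ r χ0 α u K τ → c ∈ J → Wt f U J P δ c θ M ε χ0 → ε ≤ ε0 →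
    ‖τ 0 - c‖ ≤ C * ‖deriv χ0 0‖ ∧ ∀ v : ℂ, ‖v‖ < 1 → ‖BB b1 α u v‖ ≤ r → ‖τ v - c‖ ≤ C * ‖deriv χ0 0‖ := by
  have hθ1 : θ < 1 := hθr.trans hr1
  obtain ⟨C, ε0, hC, hε0, hup⟩ := tt_up h hM hθ1 u
  obtain ⟨σ, hσ0, hσ1, hσ⟩ := bb_ex hθ1 u hr1
  obtain ⟨K0, hK1, hK⟩ := gr2 hσ1
  have hK0 : 0 < K0 := by linarith
  have hM0 : 0 < M := by linarith
  have hC0 : 0 < C := by linarith
  refine ⟨K0 * (K0 * C) + M, ε0, by nlinarith [mul_pos hK0 (mul_pos hK0 hC0)], hε0, fun {c ε χ0 τ α K} hT hc hW hε => ?_⟩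
  obtain ⟨a, b, ha, hb1, hb, hab⟩ := hT.y
  have hbσ : ‖b‖ ≤ σ := hσ α hT.al hT.cv b hb1 (hb.trans hθr.le)
  have h0σ : ‖(0 : ℂ)‖ ≤ σ := by
    rw [norm_zero]
    exact hσ0.le
  have haM : ‖χ0 a - c‖ ≤ M * ‖deriv χ0 0‖ := hW.bd a (mem_ball_zero_iff.2 (ha.trans_lt hθ1))
  have h1 := hup hT hc hW hε
  have h2 := (hK τ hT.d hT.i b 0 hbσ h0σ).1
  have key : ∀ v : ℂ, ‖v‖ ≤ σ → ‖τ v - c‖ ≤ (K0 * (K0 * C) + M) * ‖deriv χ0 0‖ := by
    intro v hv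
    have h3 := (hK τ hT.d hT.i v b hv hbσ).2
    have h4 : τ v - c = (τ v - τ b) + (χ0 a - c) := by
      rw [hab]
      ring
    have h5 := norm_add_le (τ v - τ b) (χ0 a - c)
    rw [← h4] at h5
    have h6 : K0 * ‖deriv τ b‖ ≤ K0 * (K0 * (C * ‖deriv χ0 0‖)) :=
      mul_le_mul_of_nonneg_left (h2.trans (mul_le_mul_of_nonneg_left h1 hK0.le)) hK0.le
    have h7 : (K0 * (K0 * C) + M) * ‖deriv χ0 0‖ = K0 * (K0 * (C * ‖deriv χ0 0‖)) + M * ‖deriv χ0 0‖ := by ring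
    rw [h7]
    linarith
  exact ⟨key 0 h0σ, fun v hv hvr => key v (hσ α hT.al hT.cv v hv hvr)⟩

/-- the boundaries cross -/
theorem tt_cr (h : PS f U J P Cr δ η ρ) (hM : 1 ≤ M) (hθ0 : 0 ≤ θ) (hθr : θ < r) (hr1 : r < 1) (u : ℕ) :
    ∃ ε0 : ℝ, 0 < ε0 ∧ ∀ {c : ℂ} {ε : ℝ} {χ0 τ : ℂ → ℂ} {α : ℕ → ℂ} {K : ℕ},
      TT f U P θ r χ0 α u K τ → c ∈ J → Wt f U J P δ c θ M ε χ0 → ε ≤ ε0 →
      ∃ x y : ℂ, ‖x‖ = r ∧ ‖y‖ < 1 ∧ ‖BB b1 α u y‖ = r ∧ τ y = χ0 x := by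
  have hθ1 : θ < 1 := hθr.trans hr1
  have hr0 : 0 < r := hθ0.trans_lt hθr
  have hM0 : 0 < M := by linarith
  obtain ⟨σ, hσ0, hσ1, hσ⟩ := bb_ex hθ1 u hr1
  obtain ⟨C, ε1, hC, hε1, hzb⟩ := tt_zb h hM hθ0 hθr hr1 u
  obtain ⟨d, hd, hno⟩ := noattr h
  have hC0 : 0 < C := by linarith
  refine ⟨min ε1 (d / (64 * C)), lt_min hε1 (by positivity), fun {c ε χ0 τ α K} hT hc hW hε => ?_⟩
  obtain ⟨a, b, ha, hb1, hb, hab⟩ := hT.y
  obtain ⟨x, hx1, hx, hxn⟩ := hT.z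
  have hTs : {v : ℂ | ‖v‖ < 1 ∧ ‖BB b1 α u v‖ < r} ⊆ ball 0 1 := fun v hv => mem_ball_zero_iff.2 hv.1
  have hρ' : ∀ v : ℂ, ‖v‖ < 1 → ‖BB b1 α u v‖ ≤ r → ‖v‖ ≤ σ := fun v => hσ α hT.al hT.cv v
  have hzb' := (hzb hT hc hW (hε.trans (min_le_left _ _))).2
  refine cross2 hT.d hT.i hW.d hW.i (bb_diff hT.al) hr0 hr1 hσ1 hρ' (ha.trans_lt hθr) hb1 (hb.trans_lt hθr)
    hab.symm ?_ ?_ (bb_pre hr1.le hθr hT.al hT.cv)
  · intro hcon
    have hcT : c ∈ τ '' {v | ‖v‖ < 1 ∧ ‖BB b1 α u v‖ < r} := hcon ⟨0, mem_ball_self hr0, hW.c0⟩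
    refine hno (τ '' {v | ‖v‖ < 1 ∧ ‖BB b1 α u v‖ < r}) K c
      (Pool.Agent.H39.HO.inj_open isOpen_ball hT.d hT.i hTs (bb_open hT.al r)) hcT hc ?_ hT.K1 ?_
    · rintro _ ⟨v, hv, rfl⟩
      rw [mem_ball, dist_eq_norm]
      have h1 := hzb' v hv.1 hv.2.le
      have h3 := wt_sz (χ := fun _ => χ0) hW
      have h4 : ε ≤ d / (64 * C) := hε.trans (min_le_right _ _)
      rw [le_div_iff₀ (by positivity)] at h4
      have h5 : C * ‖deriv χ0 0‖ ≤ C * (16 * ε) := mul_le_mul_of_nonneg_left h3 hC0.le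
      have h8 : C * (16 * ε) = ε * (64 * C) / 4 := by ring
      linarith
    · rintro _ ⟨v, hv, rfl⟩
      rw [hT.st v (hTs hv)]
      exact hcon ⟨_, mem_ball_zero_iff.2 hv.2, rfl⟩
  · intro hcon
    exact hxn (hcon ⟨x, ⟨hx1, hx⟩, rfl⟩)

end Pool.Agent.H3.SZ2
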